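import Pool.Agent.H63.JL.Exc

/-!
# Jacobsthal's problem: the limit of the sieve method with exact residue classes

An exact sieve certificate for `n` and `X` consists of real weights `lam d m` (`d` a divisor of `n`, `m < X` the
position in the interval) with `∑_(d | e) lam d m ≤ [e = 1]` for all `m` and all `e | n`, and of numbers `B d`, at
most the sum of `lam d m` over the `m < X` in any residue class mod `d`, whose sum over `d` is positive. Every
certificate proves that each interval of `X` consecutive integers contains one coprime to `n`. If the first `k`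
primes divide `n`, then every certificate has `X > c k ^ 2 / (log k) ^ 2`.
-/

set_option autoImplicit false

namespace Pool.Agent.Results.MP_4e17b9_nt.ExactSieveLimit

open Pool.Agent.H63.JL

theorem result :
    (∀ (n X : ℕ) (lam : ℕ → ℕ → ℝ) (B : ℕ → ℝ), 0 < n → ExactCert n X lam B →
      ∀ a : ℤ, ∃ m < X, Int.gcd (a + m) n = 1) ∧
    ∃ c : ℝ, 0 < c ∧ ∀ k : ℕ, 2 ≤ k →
      ∀ (n X : ℕ) (lam : ℕ → ℕ → ℝ) (B : ℕ → ℝ),
      0 < n → (∀ i < k, Nat.nth Nat.Prime i ∣ n) → ExactCert n X lam B →
      c * ((k : ℝ) ^ 2 / Real.log k ^ 2) < X :=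
  ⟨fun n X lam B hn h a => sound n X n lam B hn (exact_cert n X lam B hn h) a, exact_barrier⟩

end Pool.Agent.Results.MP_4e17b9_nt.ExactSieveLimit
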