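import Pool.Agent.H1.Jac3.MaxA

/-!
# The order of magnitude of Jacobsthal's function for integers with few medium prime factors

`g(n)` is of exact order `ω(n) n / φ(n)` for all `n` whose prime factors above
`exp (c log k / log log k)`, `k = ω(n)`, have a sum of reciprocals at most `1 - ε`. The maximum of
`g(n)` over the `n` with at most `k` prime factors, none of them between
`exp (c log k / log log k)` and `k ^ θ` (`θ > 1/e`), is of exact order `k log k / log log k`.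
-/

set_option autoImplicit false

namespace Pool.Agent.Results.MP_4e17b9_nt.OrderFewMediumPrimes

open Finset Pool.Agent.H1.Jac

theorem result :
    (∀ ε : ℝ, 0 < ε → ∃ C₁ C₂ c : ℝ, 0 < C₁ ∧ 0 < C₂ ∧ 0 < c ∧ ∃ k₀ : ℕ,
      ∀ n : ℕ, n ≠ 0 → k₀ ≤ n.primeFactors.card →
      ∑ p ∈ n.primeFactors.filter (fun p : ℕ => Real.exp (c * Real.log n.primeFactors.card /
        Real.log (Real.log n.primeFactors.card)) < p), 1 / (p : ℝ) ≤ 1 - ε →
      C₁ * (n.primeFactors.card * ((n : ℝ) / Nat.totient n)) ≤ jacobsthal n ∧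
        (jacobsthal n : ℝ) ≤ C₂ * (n.primeFactors.card * ((n : ℝ) / Nat.totient n))) ∧
    (∀ θ : ℝ, Real.exp (-1) < θ → ∃ C₁ C₂ c : ℝ, 0 < C₁ ∧ 0 < C₂ ∧ 0 < c ∧
      ∃ k₀ : ℕ, ∀ k ≥ k₀,
      (∀ n : ℕ, n ≠ 0 → n.primeFactors.card ≤ k →
        (∀ p ∈ n.primeFactors, (p : ℝ) ≤ Real.exp (c * Real.log k / Real.log (Real.log k)) ∨
          (k : ℝ) ^ θ < p) →
        (jacobsthal n : ℝ) ≤ C₂ * (k * Real.log k / Real.log (Real.log k))) ∧
      ∃ n : ℕ, n ≠ 0 ∧ n.primeFactors.card ≤ k ∧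
        (∀ p ∈ n.primeFactors, (p : ℝ) ≤ Real.exp (c * Real.log k / Real.log (Real.log k)) ∨
          (k : ℝ) ^ θ < p) ∧
        C₁ * (k * Real.log k / Real.log (Real.log k)) ≤ jacobsthal n) :=
  ⟨order_A, max_A⟩

end Pool.Agent.Results.MP_4e17b9_nt.OrderFewMediumPrimes
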