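import Pool.Agent.H1.Jac3.SemiG

/-!
# Jacobsthal's function with random residue classes at the medium primes

Let `n` have at most `k` prime factors, and let `K` lie between `log k` and
`exp ((log k) ^ (1/3))`. Let `R` be a set of prime factors of `n` larger than
`exp (c₁ log k / log log k)` such that the other prime factors of `n` above this bound have a sum of
reciprocals at most `1 - ε`. Then for all but a proportion `exp (-K)` of the residues `a` modulo the
product of the primes of `R`, every interval of at least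
`k K min ((log k) ^ (1 - c), C n / φ(n))` integers that begins at some `x ≡ a` contains an integer
coprime to `n`. For `θ > 1/e` one may take for `R` all prime factors in
`(exp (c₁ log k / log log k), k ^ θ]`, and intervals of `k K (log k) ^ (1 - c)` integers.
-/

set_option autoImplicit false

namespace Pool.Agent.Results.MP_4e17b9_nt.SemiRandomJacobsthal

open Finset Pool.Agent.H1.Jac

theorem result :
    (∀ ε : ℝ, 0 < ε → ∃ c c₁ C : ℝ, 0 < c ∧ 0 < c₁ ∧ 0 < C ∧ ∃ k₀ : ℕ,
      ∀ k ≥ k₀, ∀ K : ℝ, Real.log k ≤ K → K ≤ Real.exp (Real.log k ^ (1 / 3 : ℝ)) →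
      ∀ n : ℕ, n ≠ 0 → n.primeFactors.card ≤ k → ∀ R ⊆ n.primeFactors,
      (∀ p ∈ R, Real.exp (c₁ * Real.log k / Real.log (Real.log k)) < p) →
      ∑ p ∈ (n.primeFactors \ R).filter
        (fun p : ℕ => Real.exp (c₁ * Real.log k / Real.log (Real.log k)) < p), 1 / (p : ℝ) ≤
          1 - ε →
      ∀ m : ℕ, k * K * min (Real.log k ^ (1 - c)) (C * ((n : ℝ) / Nat.totient n)) ≤ m →
      ((blockedResidues (∏ p ∈ R, p) n m).card : ℝ) ≤
        Real.exp (-K) * ((∏ p ∈ R, p : ℕ) : ℝ)) ∧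
    (∀ θ : ℝ, Real.exp (-1) < θ → ∃ c c₁ : ℝ, 0 < c ∧ 0 < c₁ ∧ ∃ k₀ : ℕ,
      ∀ k ≥ k₀, ∀ K : ℝ, Real.log k ≤ K → K ≤ Real.exp (Real.log k ^ (1 / 3 : ℝ)) →
      ∀ n : ℕ, n ≠ 0 → n.primeFactors.card ≤ k → ∀ m : ℕ, k * K * Real.log k ^ (1 - c) ≤ m →
      ((blockedResidues
        (∏ p ∈ n.primeFactors.filter (fun p : ℕ =>
          Real.exp (c₁ * Real.log k / Real.log (Real.log k)) < p ∧ (p : ℝ) ≤ (k : ℝ) ^ θ), p)
          n m).card : ℝ) ≤ Real.exp (-K) *
        ((∏ p ∈ n.primeFactors.filter (fun p : ℕ =>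
          Real.exp (c₁ * Real.log k / Real.log (Real.log k)) < p ∧ (p : ℝ) ≤ (k : ℝ) ^ θ), p :
            ℕ) : ℝ)) :=
  ⟨semi_three, semi_theta_three⟩

end Pool.Agent.Results.MP_4e17b9_nt.SemiRandomJacobsthal
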