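import Pool.Agent.H63.JL.Exc

/-!
# Jacobsthal's problem: the limit of the sieve method

A sieve certificate for `n`, `X`, `D` consists of real weights `lam d m` (`d` a divisor of `n`, `m < X` the
position in the interval) with `∑_(d | e) lam d m ≤ [e = 1]` for all `m` and all `e | n`, and of lower bounds
`B d` for `∑_m lam d m x m`, valid for all admissible `x`, whose sum over `d` is positive. Here `x` stands for the
indicator function of the multiples of `d` in the interval; a certificate may use `0 ≤ x ≤ 1`, that the number of
multiples in every subinterval `J` differs from `|J| / d` by at most one, and for `d ≤ D` that the multiples of `d`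
form a residue class. Every certificate proves that each interval of `X` consecutive integers contains one coprime
to `n`. If the first `k` primes divide `n` and `D ≤ c k ^ 2 / (log k) ^ 2`, then every certificate has
`X > c k ^ 2`.
-/

set_option autoImplicit false

namespace Pool.Agent.Results.MP_4e17b9_nt.SieveLimit

open Pool.Agent.H63.JL

theorem result :
    (∀ (n X D : ℕ) (lam : ℕ → ℕ → ℝ) (B : ℕ → ℝ), 0 < n → SieveCert n X D lam B →
      ∀ a : ℤ, ∃ m < X, Int.gcd (a + m) n = 1) ∧
    ∃ c : ℝ, 0 < c ∧ ∀ k : ℕ, 2 ≤ k →
      ∀ (n X D : ℕ) (lam : ℕ → ℕ → ℝ) (B : ℕ → ℝ),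
      0 < n → (∀ i < k, Nat.nth Nat.Prime i ∣ n) → (D : ℝ) ≤ c * ((k : ℝ) ^ 2 / Real.log k ^ 2) →
      SieveCert n X D lam B → c * (k : ℝ) ^ 2 < X :=
  ⟨fun n X D lam B hn h a => sound n X D lam B hn h a, near_barrier⟩

end Pool.Agent.Results.MP_4e17b9_nt.SieveLimit
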